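import Pool.Agent.Results.MP_e3ace9_al.ResiduallyFinite
import Pool.Agent.K9h89.IGN.Fin

set_option autoImplicit false

/-!
# `IG(E(P_n))` has no finite complete rewriting system for `n ≥ 5`

The free idempotent-generated semigroup `IG(E(P_n))` over the biordered set of idempotents of the
partition monoid `P_n` (type `IGP n`, from the file `ResiduallyFinite`) is not presented by any finite
complete (terminating and confluent) rewriting system, over any finite alphabet, for every `n ≥ 5`.

Idea. A word over the idempotents is a stack of partitions. There are words `a x x ... x a` (the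
reduced factorization into regular elements is `a | x | x | ... | x | a`) whose stack has two floating
components which run through all factors `x`. With a free point one can exchange them: for a word `b`
of idempotents the equations `a b = a`, `b x = x b`, `b a = a` hold in `IG(E(P_n))`, and passing `b`
through the word exchanges the two components. On the other hand each single defining relation keeps
the components which meet a row after a regular prefix and a row before a regular suffix. In a finite
complete rewriting system all closed derivations come from critical pairs, that is from words of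
bounded length, and a long component always meets a row outside of such a word, so it is fixed by
them. Hence no derivation could exchange the two components.
-/

namespace Pool.Agent.Results.MP_e3ace9_al.NoCompleteRewriting

open Pool.Agent.Results.MP_e3ace9_al.ResiduallyFinite

/-- One rewriting step for a set `R` of rules `l → r` on words over the alphabet `A`:
`x l y → x r y` for words `x, y` (possibly empty). -/
def Rewrites {A : Type} (R : Set (List A × List A)) (w w' : List A) : Prop :=
  ∃ x l r y : List A, (l, r) ∈ R ∧ w = x ++ l ++ y ∧ w' = x ++ r ++ y

/-- The list of letters of an element of the free semigroup. -/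
def letters {A : Type} (u : FreeSemigroup A) : List A := u.head :: u.tail

/-- The semigroup `S` admits a finite complete rewriting system: there are a finite alphabet `A`, a
surjective homomorphism `φ` from the free semigroup on `A` to `S`, and a finite set `R` of rules
between nonempty words which is terminating and confluent, such that two words have the same image
under `φ` if and only if they are equivalent under the congruence generated by `R`. -/
def AdmitsFCRS (S : Type) [Semigroup S] : Prop :=
  ∃ (A : Type) (_ : Finite A) (φ : FreeSemigroup A →ₙ* S) (R : Set (List A × List A)),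
    Function.Surjective φ ∧
    R.Finite ∧
    (∀ l r, (l, r) ∈ R → l ≠ [] ∧ r ≠ []) ∧
    WellFounded (fun w' w => Rewrites R w w') ∧
    (∀ u v w, Relation.ReflTransGen (Rewrites R) u v → Relation.ReflTransGen (Rewrites R) u w →
      ∃ z, Relation.ReflTransGen (Rewrites R) v z ∧ Relation.ReflTransGen (Rewrites R) w z) ∧
    ∀ u v : FreeSemigroup A, φ u = φ v ↔ Relation.EqvGen (Rewrites R) (letters u) (letters v)

section Bridge

open Pool.Agent.H213 Pool.Agent.K9h89.IGN

variable {n : ℕ}

theorem exists_word (s : IGP n) : ∃ v : List (Lt n), v ≠ [] ∧ fwd s = mkw v := by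
  obtain ⟨w, rfl⟩ := cl_surj s
  rw [fwd_cl]
  exact wmap_eq w

theorem exists_elt (w : List (Lt n)) (h : w ≠ []) : ∃ s : IGP n, fwd s = mkw w := by
  have h1 : ∀ a : Lt n, fwd (gn (ofId a)) = mkw [a] := by
    intro a
    unfold gn
    rw [fwd_cl]
    unfold wmap
    rw [FreeSemigroup.lift_of, toId_ofId]
    rfl
  induction w with
  | nil => exact absurd rfl h
  | cons a w ih =>
    by_cases hw : w = []
    · subst hw
      exact ⟨gn (ofId a), h1 a⟩
    · obtain ⟨s, hs⟩ := ih hw
      refine ⟨gn (ofId a) * s, ?_⟩
      rw [map_mul, h1, hs, mkw_cons, mkw_cons, mkw_nil, mul_one]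

theorem trw_letters {A : Type} (φ : FreeSemigroup A →ₙ* IGP n) (tr : A → List (Lt n))
    (h : ∀ a, fwd (φ (FreeSemigroup.of a)) = mkw (tr a)) (u : FreeSemigroup A) :
    fwd (φ u) = mkw (trw tr (letters u)) := by
  induction u using FreeSemigroup.recOnMul with
  | ih1 a =>
    rw [h]
    simp [letters, trw, FreeSemigroup.of]
  | ih2 a u h1 h2 =>
    rw [map_mul, map_mul, h1, h2, ← mkw_append, ← trw_append]
    rfl

end Bridge

/-- **Theorem.** For every `n ≥ 5` the free idempotent-generated semigroup `IG(E(P_n))` over the
biordered set of idempotents of the partition monoid `P_n` does not admit a finite complete rewriting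
system. -/
theorem result : ∀ n : ℕ, 5 ≤ n → ¬ AdmitsFCRS (IGP n) := by
  rintro n hn ⟨A, _, φ, R, hsurj, hfin, hne, hwf, hconf, hpres⟩
  choose tr htr1 htr2 using fun a : A => exists_word (φ (FreeSemigroup.of a))
  have hφ := trw_letters φ tr htr2
  have hlist : ∀ u : List A, u ≠ [] → ∃ v : FreeSemigroup A, letters v = u := by
    intro u hu
    cases u with
    | nil => exact absurd rfl hu
    | cons a l => exact ⟨⟨a, l⟩, rfl⟩
  apply Pool.Agent.K9h89.IGN.no_fcrs hn tr R hfin _ hwf hconf
  · intro w hw
    obtain ⟨s, hs⟩ := exists_elt w hw
    obtain ⟨u, rfl⟩ := hsurj s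
    exact ⟨letters u, by simp [letters], by rw [← hφ, hs]⟩
  · intro u v hu hv h
    obtain ⟨u, rfl⟩ := hlist u hu
    obtain ⟨v, rfl⟩ := hlist v hv
    rw [← hφ, ← hφ] at h
    exact (hpres u v).1 (fwd_injective h)
  · intro l r hlr
    obtain ⟨h1, h2⟩ := hne l r hlr
    obtain ⟨u, rfl⟩ := hlist l h1
    obtain ⟨v, rfl⟩ := hlist r h2
    rw [← hφ, ← hφ]
    congr 1
    apply (hpres u v).2
    exact Relation.EqvGen.rel _ _ ⟨[], letters u, letters v, [], hlr, by simp, by simp⟩

end Pool.Agent.Results.MP_e3ace9_al.NoCompleteRewriting
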